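import Pool.Agent.K1H73.ON.Main
import Pool.Agent.K1H73.ON.Sc
import Pool.Agent.K1H73.ON.Geo
import Pool.Agent.K1H73.ON.He
import Pool.Agent.K1H20.ON.Pn
import Pool.Agent.K1H28.ON.WT
import Pool.Agent.K1H29.ON.Fou
import Pool.Agent.K1H37.ON.Abs
import Pool.Agent.K1H46.ON.Fl
import Pool.Agent.K1H52.ON.InvCfg
import Pool.Agent.K1H52.ON.Flp
import Pool.Agent.K1H59.ON.HpHt
import Pool.Agent.K1H65.ON.TG
import Pool.Agent.K1H75.ON.Ex
import Pool.Agent.K1H73.ON.Rch
import Pool.Agent.K1H86.ON.Dg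
import Pool.Agent.K1H91.ON.Xs
import Pool.Agent.K1H99.ON.Lp
import Pool.Agent.K1H16.ON.HA
import Pool.Agent.K1H26.ON.CF

set_option autoImplicit false

/-!
The O(n) loop model on the honeycomb lattice for ALL `n > 0` and ALL edge weights `x > 0` (the
parameters of Q1 and of Q2), in discrete domains which are flat near `a` and of any shape elsewhere:
the characteristic function of the number of steps of the path from `a` to `b` decays exponentially in
`1/δ`, also jointly with the loops; hence its law is smooth to every order.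
-/

namespace Pool.Agent.Results.MP_4960b8_pr.AllParameters

open Finset

/-- adjacency on the honeycomb lattice, drawn as a brick wall -/
def Nbr (p q : ℤ × ℤ) : Prop :=
  q - p = (1, 0) ∨ q - p = (-1, 0) ∨ (q - p = (0, 1) ∧ Even (p.1 + p.2)) ∨
    (q - p = (0, -1) ∧ Even (q.1 + q.2))

/-- the number of edges of `ω` at `v` -/
noncomputable def deg (ω : Finset (Sym2 (ℤ × ℤ))) (v : ℤ × ℤ) : ℕ := by
  classical exact (ω.filter (fun e => v ∈ e)).card

/-- `u` and `v` are connected by edges of `ω` -/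
def Conn (ω : Finset (Sym2 (ℤ × ℤ))) (u v : ℤ × ℤ) : Prop :=
  (SimpleGraph.fromEdgeSet (ω : Set (Sym2 (ℤ × ℤ)))).Reachable u v

/-- the configurations in `D`: sets of edges of `D` with degree 1 at `a` and `b` and degree 0 or 2 at
all other vertices -/
def IsConfig (D : Finset (ℤ × ℤ)) (a b : ℤ × ℤ) (ω : Finset (Sym2 (ℤ × ℤ))) : Prop :=
  (∀ e ∈ ω, ∃ p q, e = s(p, q) ∧ Nbr p q ∧ p ∈ D ∧ q ∈ D) ∧
  (deg ω a = 1 ∧ deg ω b = 1) ∧ ∀ v, v ≠ a → v ≠ b → deg ω v = 0 ∨ deg ω v = 2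

/-- the finite set of all configurations -/
noncomputable def configs (D : Finset (ℤ × ℤ)) (a b : ℤ × ℤ) : Finset (Finset (Sym2 (ℤ × ℤ))) := by
  classical exact (((D ×ˢ D).image (fun p => s(p.1, p.2))).powerset).filter (IsConfig D a b)

/-- every configuration is in this finite set -/
theorem mem_configs (D : Finset (ℤ × ℤ)) (a b : ℤ × ℤ) (ω : Finset (Sym2 (ℤ × ℤ))) :
    ω ∈ configs D a b ↔ IsConfig D a b ω :=
  Pool.Agent.K1H52.ON.t_CFG D a b ω

/-- the number of loops: the components with at least one edge which do not contain `a` -/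
noncomputable def loops (a : ℤ × ℤ) (ω : Finset (Sym2 (ℤ × ℤ))) : ℕ :=
  Set.ncard {C : Set (ℤ × ℤ) | ∃ v, (∃ e ∈ ω, v ∈ e) ∧ ¬ Conn ω a v ∧ C = {u | Conn ω v u}}

/-- the number of steps of the path: the edges connected to `a` -/
noncomputable def len (a : ℤ × ℤ) (ω : Finset (Sym2 (ℤ × ℤ))) : ℕ := by
  classical exact (ω.filter (fun e => ∃ v ∈ e, Conn ω a v)).card

/-- the weight `x ^ (number of edges) * n ^ (number of loops)` -/
noncomputable def weight (n x : ℝ) (a : ℤ × ℤ) (ω : Finset (Sym2 (ℤ × ℤ))) : ℝ :=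
  x ^ ω.card * n ^ loops a ω

/-- the partition function -/
noncomputable def Z (n x : ℝ) (D : Finset (ℤ × ℤ)) (a b : ℤ × ℤ) : ℝ :=
  ∑ ω ∈ configs D a b, weight n x a ω

/-- the corners of the hexagon (brick) with lower left corner `c`, `c.1 + c.2` even, in cyclic order -/
def corner (c : ℤ × ℤ) (i : ℕ) : ℤ × ℤ :=
  match i % 6 with
  | 0 => (c.1, c.2)
  | 1 => (c.1 + 1, c.2)
  | 2 => (c.1 + 2, c.2)
  | 3 => (c.1 + 2, c.2 + 1)
  | 4 => (c.1 + 1, c.2 + 1)
  | _ => (c.1, c.2 + 1)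

/-- the sides of the hexagon -/
def side (c : ℤ × ℤ) (i : ℕ) : Sym2 (ℤ × ℤ) := s(corner c i, corner c (i + 1))

/-- the hexagon as a set of six edges -/
def hexagon (c : ℤ × ℤ) : Finset (Sym2 (ℤ × ℤ)) := (Finset.range 6).image (side c)

/-- `ω` meets the hexagon exactly in an arc of two sides or in an arc of four sides -/
def Arc (c : ℤ × ℤ) (ω : Finset (Sym2 (ℤ × ℤ))) : Prop :=
  ∃ i < 6, ω ∩ hexagon c = {side c i, side c (i + 1)} ∨
    ω ∩ hexagon c = {side c (i + 2), side c (i + 3), side c (i + 4), side c (i + 5)}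

/-- `F` does not change when an arc of two or four sides of a hexagon, on the path, is replaced by the
complementary arc (where both edge sets are configurations): for instance, `F = 1`, or `F` any function
of the set of the edges of the loops -/
def Blind (D : Finset (ℤ × ℤ)) (a b : ℤ × ℤ) (F : Finset (Sym2 (ℤ × ℤ)) → ℂ) : Prop :=
  ∀ ω, IsConfig D a b ω → ∀ c : ℤ × ℤ, Even (c.1 + c.2) → Arc c ω →
    IsConfig D a b (symmDiff ω (hexagon c)) →
    (∃ i < 6, Conn ω a (corner c i)) → F (symmDiff ω (hexagon c)) = F ω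

/-- the domain `D` is the half-plane `y ≥ 0` near `a`, in a box of size proportional to `K`; `a` is
near the origin in row zero, `b` is outside the box; outside the box `D` is any finite set -/
def Domain (K : ℕ) (D : Finset (ℤ × ℤ)) (a b : ℤ × ℤ) : Prop :=
  (∀ v : ℤ × ℤ, |v.1| ≤ 6 * K + 20 → v.2 ≤ 3 * K + 10 → (v ∈ D ↔ 0 ≤ v.2)) ∧
  a.2 = 0 ∧ (a.1 = 0 ∨ a.1 = 1) ∧ b ∈ D ∧ ¬ (|b.1| ≤ 6 * K + 20 ∧ b.2 ≤ 3 * K + 10)

open Pool.Agent in
/-- the main estimate, from the pieces -/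
theorem main2 : K1H73.ON.MAIN2 := by
  have hXS := K1H91.ON.t_XS K1H26.ON.t_CF
  exact K1H73.ON.t_MAIN2 K1H37.ON.t_ABS K1H20.ON.t_PN K1H75.ON.t_EX K1H52.ON.t_INV
    K1H73.ON.Geo.t_GEO
    (K1H65.ON.t_TG K1H16.ON.t_HA K1H59.ON.t_HP K1H59.ON.t_HT K1H73.ON.He.t_HE hXS
      K1H73.ON.Geo.t_GEO)
    hXS (K1H28.ON.t_WT K1H99.ON.t_LP) K1H52.ON.t_CFG
    (K1H46.ON.t_FL K1H75.ON.t_EX K1H52.ON.t_INV K1H73.ON.Geo.t_GEO
      (K1H52.ON.t_FLP K1H73.ON.Rch.t_RCH) K1H26.ON.t_CF K1H86.ON.t_DG)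
    (K1H73.ON.t_SC K1H75.ON.t_EX K1H52.ON.t_INV K1H73.ON.Geo.t_GEO)

/-- **Theorem.** Let `n > 0` and `x > 0`. There are `c > 0` and constants `C r` such that for all
`K ≥ 1`, all domains `D` flat near `a` at the scale `K` and all `F` with values in the unit disc that
are blind for flips on the path, the path from `a` to `b` of the O(n) model with edge weight `x`, with
`l = len a` steps, satisfies (1) `|E F exp(i θ l)| ≤ (1 - c sin² θ) ^ K` for all real `θ`, and (2)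
`|∑_{i ≤ r} (-1)^i binom(r, i) E[F; l = j + 2 i]| ≤ C r K ^ (-(r + 1) / 2)` for all `r` and `j`. -/
theorem result : ∀ n x : ℝ, 0 < n → 0 < x → ∃ c : ℝ, 0 < c ∧ c ≤ 1 ∧ ∃ C : ℕ → ℝ,
    ∀ (K : ℕ) (D : Finset (ℤ × ℤ)) (a b : ℤ × ℤ), 1 ≤ K → Domain K D a b →
    ∀ F : Finset (Sym2 (ℤ × ℤ)) → ℂ, (∀ ω, ‖F ω‖ ≤ 1) → Blind D a b F →
      (∀ θ : ℝ, ‖∑ ω ∈ configs D a b, (weight n x a ω : ℂ) * F ω *
          Complex.exp (θ * len a ω * Complex.I)‖ ≤ (1 - c * Real.sin θ ^ 2) ^ K * Z n x D a b) ∧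
      ∀ (r : ℕ) (j : ℤ), ‖∑ i ∈ Finset.range (r + 1), (-1 : ℂ) ^ i * (r.choose i : ℂ) *
          ∑ ω ∈ configs D a b,
            (if (len a ω : ℤ) = j + 2 * i then (weight n x a ω : ℂ) * F ω else 0)‖ ≤
        C r * (K : ℝ) ^ (-((r : ℝ) + 1) / 2) * Z n x D a b := by
  intro n x hn hx
  obtain ⟨c, hc0, hc1, hc⟩ := main2 n x hn hx
  have hfou := fun r : ℕ => Pool.Agent.K1H29.ON.t_FOU r c hc0 hc1
  choose C hC using hfou
  refine ⟨c, hc0, hc1, C, ?_⟩
  intro K D a b hK hD F hF hB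
  have h1 : ∀ θ : ℝ, ‖∑ ω ∈ configs D a b, (weight n x a ω : ℂ) * F ω *
      Complex.exp (θ * len a ω * Complex.I)‖ ≤ (1 - c * Real.sin θ ^ 2) ^ K * Z n x D a b :=
    fun θ => hc K D a b hD F hF hB θ
  refine ⟨h1, fun r j => ?_⟩
  have hZ : 0 ≤ Z n x D a b := by
    unfold Z
    refine Finset.sum_nonneg fun ω _ => ?_
    unfold weight
    positivity
  exact hC r (Finset (Sym2 (ℤ × ℤ))) (configs D a b) (fun ω => (weight n x a ω : ℂ) * F ω)
    (len a) (Z n x D a b) K hZ hK h1 j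

end Pool.Agent.Results.MP_4960b8_pr.AllParameters
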