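import Pool.Agent.K1H48.SO.DomG
import Pool.Agent.K1H48.SO.GaussFin

/-!
The path of the O(0) model on the honeycomb lattice in discrete domains, between two given points, at
the critical point `xc` and slightly above it: the quotient of the number of the ways to make the path
longer and of the number of the ways to make it shorter, by a change at one hexagon, deviates from
`1 / x²` by a factor `1 + s / √(l + 1)`, with `l` the number of steps, with probability at most
`C exp (- s² / C)`.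
-/

set_option autoImplicit false

namespace Pool.Agent.Results.MP_4960b8_pr.GaussianBalance

/-- Adjacency in the honeycomb lattice (brick-wall coordinates). -/
def Nbr (p q : ℤ × ℤ) : Prop :=
  (p.2 = q.2 ∧ (p.1 - q.1 = 1 ∨ q.1 - p.1 = 1)) ∨
    (p.1 = q.1 ∧ ((q.2 = p.2 + 1 ∧ Even (p.1 + p.2)) ∨ (p.2 = q.2 + 1 ∧ Even (q.1 + q.2))))

/-- The self-avoiding trajectories from `a` to `b` in `D`, as lists of vertices. -/
def Traj (D : Set (ℤ × ℤ)) (a b : ℤ × ℤ) : Set (List (ℤ × ℤ)) :=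
  {l | l.head? = some a ∧ l.getLast? = some b ∧ l.Nodup ∧ l.IsChain Nbr ∧ ∀ p ∈ l, p ∈ D}

/-- The critical point `xc(0) = 1 / √(2 + √2)`. -/
noncomputable def xc : ℝ := 1 / Real.sqrt (2 + Real.sqrt 2)

/-- The number of steps of a path given by the list of its vertices. -/
def steps (l : List (ℤ × ℤ)) : ℕ := l.length - 1

/-- The partition function: the sum of `x ^ (number of steps)` over the trajectories. -/
noncomputable def Z (x : ℝ) (D : Set (ℤ × ℤ)) (a b : ℤ × ℤ) : ℝ :=
  ∑ᶠ l ∈ Traj D a b, x ^ steps l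

/-- The mean value of `F` for the path of the O(0) model in `D` from `a` to `b`. -/
noncomputable def mean (x : ℝ) (D : Set (ℤ × ℤ)) (a b : ℤ × ℤ) (F : List (ℤ × ℤ) → ℝ) : ℝ :=
  (∑ᶠ l ∈ Traj D a b, x ^ steps l * F l) / Z x D a b

/-- The position of the vertices in the plane: the honeycomb lattice with unit edge length (`Nbr p q`
if and only if the points `emb p` and `emb q` have distance `1`). -/
noncomputable def emb (v : ℤ × ℤ) : ℂ :=
  ⟨Real.sqrt 3 / 2 * v.1, 3 / 2 * v.2 + if Even (v.1 + v.2) then 1 / 2 else 0⟩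

/-- The coordinate in the direction `u = exp (- i π / 6)`, one of the directions of the edges. -/
noncomputable def lv (z : ℂ) : ℝ := (Real.sqrt 3 * z.re - z.im) / 2

/-- The open half-disc with centre `a` and radius `r` on the side `ε u` of `a` (`ε = 1` or
`ε = -1`). -/
def HD (a : ℂ) (ε r : ℝ) : Set ℂ := {z | ‖z - a‖ < r ∧ 0 < ε * (lv z - lv a)}

/-- The vertices in the half-disc (with its diameter) with centre `δ p` and radius `r`, on the
side `ε u` of `p`, for the lattice with mesh `δ`. -/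
def Hd (δ ε r : ℝ) (p : ℤ × ℤ) : Set (ℤ × ℤ) :=
  {v | ‖(δ : ℂ) * emb v - δ * emb p‖ < r ∧ 0 ≤ ε * (lv (emb v) - lv (emb p))}

/-- `p` is the lattice point with an edge in the direction `- ε u`: a boundary vertex of a half-plane
on the side `ε u`. -/
def Bd (ε : ℝ) (p : ℤ × ℤ) : Prop :=
  (ε = 1 ∧ Odd (p.1 + p.2)) ∨ (ε = -1 ∧ Even (p.1 + p.2))

/-- Every vertex outside `D` has two neighbours outside `D` (for example: the complement of `D` is a
union of hexagons). -/
def Closed (D : Set (ℤ × ℤ)) : Prop :=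
  ∀ v, v ∉ D → ∃ u u', u ≠ u' ∧ Nbr v u ∧ Nbr v u' ∧ u ∉ D ∧ u' ∉ D

/-- `U` consists of three consecutive vertices `p, q, r` of a hexagon and `U'` is the other path
`p, x, y, z, r` from `p` to `r` along the hexagon. -/
def HexPair (U U' : List (ℤ × ℤ)) : Prop :=
  ∃ p q r x y z, U = [p, q, r] ∧ U' = [p, x, y, z, r] ∧ U.IsChain Nbr ∧ U'.IsChain Nbr ∧
    [p, q, r, z, y, x].Nodup

/-- The number of the ways to replace in `l` two consecutive edges by the four other edges of a
hexagon, such that the new vertices are in `D` and not in `l`. -/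
noncomputable def up (D : Set (ℤ × ℤ)) (l : List (ℤ × ℤ)) : ℕ :=
  {u : List (ℤ × ℤ) × List (ℤ × ℤ) | HexPair u.1 u.2 ∧ u.1 <:+: l ∧
    ∀ v ∈ u.2, v ∈ D ∧ (v ∈ u.1 ∨ v ∉ l)}.ncard

/-- The number of the ways to replace in `l` four consecutive edges by the two other edges of a
hexagon, such that the new vertex is in `D` and not in `l`. -/
noncomputable def down (D : Set (ℤ × ℤ)) (l : List (ℤ × ℤ)) : ℕ :=
  {u : List (ℤ × ℤ) × List (ℤ × ℤ) | HexPair u.1 u.2 ∧ u.2 <:+: l ∧
    ∀ v ∈ u.1, v ∈ D ∧ (v ∈ u.2 ∨ v ∉ l)}.ncard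

open Classical in
/-- **Theorem.** Let `W` be a connected open set of the plane, `a ≠ b` points such that `W` contains
a half-disc with centre `a` on the side `ε u` and a half-disc with centre `b` on the side `ε' u`, and
`M` a real number.  There are a compact set `K` contained in `W` and `C ≥ 1` such that for every mesh
`δ ≤ 1 / C`, every closed set `D` of vertices such that `δ D` lies in the disc of radius `M`, all
vertices `p` and `q` with the parities of boundary vertices of half-planes on the sides `ε u` and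
`ε' u` and with `δ p` and `δ q` at distance at most `1 / C` of `a` and `b`, such that `D` contains the
vertices of `K` and the half-discs of `p` and `q`, and every `x` with `xc ≤ x ≤ 0.544`, the path `γ`
of the O(0) model with parameter `x` in `D` from `p` to `q`, with `l` steps, satisfies, for
`0 ≤ s ≤ 1 / √δ`: with probability at least `1 - C exp (- s² / C)` one has `down > 0` and
`|x² up / down - 1| ≤ s / √(l + 1)`. -/
theorem result (W : Set ℂ) (hW : IsOpen W) (hc : IsConnected W) (a b : ℂ) (hab : a ≠ b)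
    (ε ε' : ℝ) (hε : ε = 1 ∨ ε = -1) (hε' : ε' = 1 ∨ ε' = -1) (r : ℝ) (hr : 0 < r)
    (ha : HD a ε r ⊆ W) (hb : HD b ε' r ⊆ W) (M : ℝ) :
    ∃ K : Set ℂ, K ⊆ W ∧ IsCompact K ∧ ∃ C : ℝ, 1 ≤ C ∧ ∀ δ : ℝ, 0 < δ → C * δ ≤ 1 →
      ∀ (D : Set (ℤ × ℤ)) (p q : ℤ × ℤ), Bd ε p → Bd ε' q →
      C * ‖(δ : ℂ) * emb p - a‖ ≤ 1 → C * ‖(δ : ℂ) * emb q - b‖ ≤ 1 →
      (∀ v : ℤ × ℤ, (δ : ℂ) * emb v ∈ K → v ∈ D) → Hd δ ε r p ⊆ D → Hd δ ε' r q ⊆ D →
      (∀ v ∈ D, ‖(δ : ℂ) * emb v‖ ≤ M) → Closed D → ∀ x : ℝ, xc ≤ x → x ≤ 544 / 1000 →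
      (Traj D p q).Finite ∧ 0 < Z x D p q ∧
      ∀ s : ℝ, 0 ≤ s → s ^ 2 * δ ≤ 1 →
        mean x D p q (fun l => if |x ^ 2 * (up D l : ℝ) - (down D l : ℝ)| ≤
            s / √((steps l : ℝ) + 1) * (down D l : ℝ) ∧ 0 < down D l then 0 else 1) ≤
          C * Real.exp (-(s ^ 2 / C)) := by
  obtain ⟨K, hK, hKc, C, hC, h⟩ :=
    Pool.Agent.K1H48.SO.dom_gauss W hW hc a b hab ε ε' hε hε' r hr ha hb M
  refine ⟨K, hK, hKc, C, hC, ?_⟩
  intro δ hδ hCδ D p q hp hq hpa hqb hKD hpD hqD hDM hcl x hx hx'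
  obtain ⟨h1, h2, h3⟩ :=
    h δ hδ hCδ D p q hp hq hpa hqb hKD hpD hqD hDM hcl x hx hx'
  refine ⟨h1, h2, fun s hs0 hs => ?_⟩
  have hx0 : 0 < x := lt_of_lt_of_le Pool.Agent.R131.LS.xr_pos hx
  refine le_trans (Pool.Agent.K1H48.SO.Mx_mono hx0 h1 fun l _ => ?_) (h3 s hs0 hs)
  exact Pool.Agent.K1H48.SO.off_x hs0 l

end Pool.Agent.Results.MP_4960b8_pr.GaussianBalance
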