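import Pool.Agent.K1H48.SO.Pat2

/-!
The O(n) loop model on the honeycomb lattice, in an arbitrary finite domain, with a path `γ` between
two given vertices.  For two patterns `U`, `U'` with the same end points, the numbers of the places
where `U` can be replaced by `U'` and `U'` by `U` in the path `γ` balance each other up to
`t √(|γ| + 1)`, with probability at least `1 - C exp (- t² / C)`; here `C` depends only on the
patterns.
-/

set_option autoImplicit false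

namespace Pool.Agent.Results.MP_4960b8_pr.LocalMoves

open scoped Classical

/-- Adjacency in the honeycomb lattice (brick-wall coordinates). -/
def Nbr (p q : ℤ × ℤ) : Prop :=
  (p.2 = q.2 ∧ (p.1 - q.1 = 1 ∨ q.1 - p.1 = 1)) ∨
    (p.1 = q.1 ∧ ((q.2 = p.2 + 1 ∧ Even (p.1 + p.2)) ∨ (p.2 = q.2 + 1 ∧ Even (q.1 + q.2))))

/-- The self-avoiding trajectories from `a` to `b` in `D`, as lists of vertices. -/
def Traj (D : Set (ℤ × ℤ)) (a b : ℤ × ℤ) : Set (List (ℤ × ℤ)) :=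
  {l | l.head? = some a ∧ l.getLast? = some b ∧ l.Nodup ∧ l.IsChain Nbr ∧ ∀ p ∈ l, p ∈ D}

/-- The number of steps of a path given by the list of its vertices. -/
def steps (l : List (ℤ × ℤ)) : ℕ := l.length - 1

/-- The vertices of a set of edges. -/
def verts (ω : Finset (Sym2 (ℤ × ℤ))) : Set (ℤ × ℤ) := {v | ∃ e ∈ ω, v ∈ e}

/-- Every vertex has degree `0` or `2` in the set `ω` of edges. -/
def Deg (ω : Finset (Sym2 (ℤ × ℤ))) : Prop :=
  ∀ v : ℤ × ℤ, {e | e ∈ ω ∧ v ∈ e}.ncard = 0 ∨ {e | e ∈ ω ∧ v ∈ e}.ncard = 2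

/-- `ω` is a set of edges of the honeycomb lattice between vertices of `D` in which every vertex has
degree `0` or `2`, that is the set of the edges of finitely many disjoint loops. -/
def IsLoops (D : Set (ℤ × ℤ)) (ω : Finset (Sym2 (ℤ × ℤ))) : Prop :=
  (∀ p q, s(p, q) ∈ ω → Nbr p q ∧ p ∈ D ∧ q ∈ D) ∧ Deg ω

/-- The number of loops: the number of the minimal nonempty sets of edges contained in `ω` in which
every vertex has degree `0` or `2`. -/
noncomputable def loops (ω : Finset (Sym2 (ℤ × ℤ))) : ℕ :=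
  {η : Finset (Sym2 (ℤ × ℤ)) | η ⊆ ω ∧ η.Nonempty ∧ Deg η ∧
    ∀ η' ⊆ η, η'.Nonempty → Deg η' → η' = η}.ncard

/-- The configurations in `D`: a self-avoiding path from `a` to `b` and disjoint loops which do not
meet the path. -/
def Conf (D : Set (ℤ × ℤ)) (a b : ℤ × ℤ) : Set (List (ℤ × ℤ) × Finset (Sym2 (ℤ × ℤ))) :=
  {c | c.1 ∈ Traj D a b ∧ IsLoops D c.2 ∧ ∀ v ∈ c.1, v ∉ verts c.2}

/-- The weight `x ^ (number of edges) * n ^ (number of loops)`. -/
noncomputable def weight (n x : ℝ) (c : List (ℤ × ℤ) × Finset (Sym2 (ℤ × ℤ))) : ℝ :=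
  x ^ (steps c.1 + c.2.card) * n ^ loops c.2

/-- The mean value of `F` for the O(n) model in `D` with a path from `a` to `b`. -/
noncomputable def mean (n x : ℝ) (D : Set (ℤ × ℤ)) (a b : ℤ × ℤ)
    (F : List (ℤ × ℤ) × Finset (Sym2 (ℤ × ℤ)) → ℝ) : ℝ :=
  (∑ᶠ c ∈ Conf D a b, weight n x c * F c) / ∑ᶠ c ∈ Conf D a b, weight n x c

/-- A finite self-avoiding path on the honeycomb lattice (with any starting point). -/
def IsPath (U : List (ℤ × ℤ)) : Prop := U ≠ [] ∧ U.Nodup ∧ U.IsChain Nbr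

/-- The number of places where `U` can be replaced by `U'` in the path of the configuration `c`: the
number of the translations `x` of the lattice such that `x + U` is a block of consecutive vertices of
the path, and every vertex of `x + U'` is in `D` and is a vertex of `x + U` or is neither on the path
nor on the loops. -/
noncomputable def N (D : Set (ℤ × ℤ)) (U U' : List (ℤ × ℤ))
    (c : List (ℤ × ℤ) × Finset (Sym2 (ℤ × ℤ))) : ℕ :=
  {x : ℤ × ℤ | Even (x.1 + x.2) ∧ U.map (x + ·) <:+: c.1 ∧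
    ∀ y ∈ U', x + y ∈ D ∧ (y ∈ U ∨ (x + y ∉ c.1 ∧ x + y ∉ verts c.2))}.ncard

theorem pr {U U' : List (ℤ × ℤ)} (hU : IsPath U) (hU' : IsPath U') (h1 : U.head? = U'.head?)
    (h2 : U.getLast? = U'.getLast?) : H726.GB.Pr TH966.AK.Hex.A U U' := by
  have e : Nbr = TH966.AK.Hex.A := Pool.Agent.R131.LS.nbr_eq
  obtain ⟨a1, a2, a3⟩ := hU
  obtain ⟨b1, b2, b3⟩ := hU'
  rw [e] at a3 b3
  exact ⟨a1, b1, h1, h2, a2, b2, a3, b3⟩

theorem N_eq {D : Set (ℤ × ℤ)} {U U' : List (ℤ × ℤ)}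
    {c : List (ℤ × ℤ) × Finset (Sym2 (ℤ × ℤ))} (hc : ∀ v ∈ c.1, v ∉ verts c.2) :
    N D U U' c = Pool.Agent.K1H48.SO.NP (D \ verts c.2) U U' c.1 := by
  unfold N Pool.Agent.K1H48.SO.NP
  congr 1
  ext x
  simp only [Set.mem_ofPred_eq, Set.mem_sdiff]
  refine and_congr Iff.rfl ⟨fun h => ⟨h.1, fun y hy => ?_⟩, fun h => ⟨h.1, fun y hy => ?_⟩⟩
  · obtain ⟨h1, h2⟩ := h.2 y hy
    rcases h2 with h2 | ⟨h2, h3⟩
    · have h3 : x + y ∈ c.1 := h.1.subset (List.mem_map.2 ⟨y, h2, rfl⟩)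
      exact ⟨⟨h1, hc _ h3⟩, Or.inl h2⟩
    · exact ⟨⟨h1, h3⟩, Or.inr h2⟩
  · obtain ⟨⟨h1, h2⟩, h3⟩ := h.2 y hy
    rcases h3 with h3 | h3
    · exact ⟨h1, Or.inl h3⟩
    · exact ⟨h1, Or.inr ⟨h3, h2⟩⟩

theorem traj_iff {D : Set (ℤ × ℤ)} {a b : ℤ × ℤ} {ω : Finset (Sym2 (ℤ × ℤ))}
    {l : List (ℤ × ℤ)} : l ∈ Traj (D \ verts ω) a b ↔
      l ∈ Traj D a b ∧ ∀ v ∈ l, v ∉ verts ω := by
  unfold Traj
  simp only [Set.mem_ofPred_eq, Set.mem_sdiff]
  constructor
  · rintro ⟨h1, h2, h3, h4, h5⟩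
    exact ⟨⟨h1, h2, h3, h4, fun p hp => (h5 p hp).1⟩, fun p hp => (h5 p hp).2⟩
  · rintro ⟨⟨h1, h2, h3, h4, h5⟩, h6⟩
    exact ⟨h1, h2, h3, h4, fun p hp => ⟨h5 p hp, h6 p hp⟩⟩

theorem traj_finite {D : Set (ℤ × ℤ)} (hD : D.Finite) (a b : ℤ × ℤ) : (Traj D a b).Finite :=
  Pool.Agent.K1H48.SO.traj_finite hD a b

theorem loops_finite {D : Set (ℤ × ℤ)} (hD : D.Finite) : {ω | IsLoops D ω}.Finite := by
  have h1 : (Set.image2 (fun p q => s(p, q)) D D).Finite := hD.image2 _ hD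
  obtain ⟨F, hF⟩ := h1.exists_finset_coe
  refine (F.powerset.finite_toSet).subset fun ω hω => ?_
  rw [Finset.mem_coe, Finset.mem_powerset]
  intro e he
  rw [← Finset.mem_coe, hF]
  induction e using Sym2.ind with
  | _ p q =>
    obtain ⟨-, hp, hq⟩ := hω.1 p q he
    exact ⟨p, hp, q, hq, rfl⟩

theorem conf_sum {D : Set (ℤ × ℤ)} (hD : D.Finite) (a b : ℤ × ℤ)
    (f : List (ℤ × ℤ) × Finset (Sym2 (ℤ × ℤ)) → ℝ) :
    ∑ᶠ c ∈ Conf D a b, f c = ∑ ω ∈ (loops_finite hD).toFinset,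
      ∑ l ∈ (traj_finite (hD.subset (Set.sdiff_subset (t := verts ω))) a b).toFinset,
        f (l, ω) := by
  have hc : (Conf D a b).Finite := ((traj_finite hD a b).prod (loops_finite hD)).subset
    fun c hc => ⟨hc.1, hc.2.1⟩
  rw [finsum_mem_eq_finite_toFinset_sum _ hc]
  refine Finset.sum_finset_product_right hc.toFinset (loops_finite hD).toFinset
    (fun ω => (traj_finite (hD.subset (Set.sdiff_subset (t := verts ω))) a b).toFinset) ?_
  intro c
  rw [Set.Finite.mem_toFinset, Set.Finite.mem_toFinset, Set.Finite.mem_toFinset, traj_iff]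
  constructor
  · rintro ⟨h1, h2, h3⟩
    exact ⟨h2, h1, h3⟩
  · rintro ⟨h2, h1, h3⟩
    exact ⟨h1, h2, h3⟩

/-- **Theorem.** Let `U`, `U'` be self-avoiding paths on the honeycomb lattice with the same first
vertex and the same last vertex, `|U| ≤ |U'|`.  There is a constant `C` such that for every finite
set `D` of vertices, all vertices `a`, `b`, all `x > 0` and all `n ≥ 0`, the path `γ` from `a` to
`b` of the O(n) loop model in `D` with parameters `n`, `x` satisfies, for all `t ≥ 0`, with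
`k = |U'| - |U|`,
`|min (1, x ^ k) * N(U → U') - min (1, x ^ (-k)) * N(U' → U)| < t * √(|γ| + 1)` with probability at
least `1 - C exp (- t² / C)`, where `N(U → U')` is the number of the places where `U` can be replaced
by `U'` in the path (for `x ≤ 1` this is `|x ^ k * N(U → U') - N(U' → U)| < t * √(|γ| + 1)`). -/
theorem result (U U' : List (ℤ × ℤ)) (hU : IsPath U) (hU' : IsPath U')
    (hh : U.head? = U'.head?) (ht : U.getLast? = U'.getLast?) (hl : U.length ≤ U'.length) :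
    ∃ C : ℝ, 1 ≤ C ∧ ∀ D : Set (ℤ × ℤ), D.Finite → ∀ (a b : ℤ × ℤ) (n x : ℝ), 0 ≤ n → 0 < x →
      ∀ t : ℝ, 0 ≤ t →
      mean n x D a b (fun c => if t * √((steps c.1 : ℝ) + 1) ≤
          |min 1 (x ^ (U'.length - U.length)) * (N D U U' c : ℝ) -
            min 1 (x ^ (U'.length - U.length))⁻¹ * (N D U' U c : ℝ)| then 1 else 0) ≤
        C * Real.exp (-(t ^ 2 / C)) := by
  obtain ⟨C, hC, h⟩ := Pool.Agent.K1H48.SO.univ_pat3 U U' (pr hU hU' hh ht) hl
  refine ⟨C, hC, ?_⟩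
  intro D hD a b n x hn hx0 t ht0
  have hR : 0 ≤ C * Real.exp (-(t ^ 2 / C)) := by
    have := Real.exp_pos (-(t ^ 2 / C))
    nlinarith
  unfold mean
  rw [conf_sum hD, conf_sum hD]
  have hw : ∀ (l : List (ℤ × ℤ)) (ω : Finset (Sym2 (ℤ × ℤ))), weight n x (l, ω) =
      (x ^ ω.card * n ^ loops ω) * x ^ (l.length - 1) := by
    intro l ω
    unfold weight steps
    rw [pow_add]
    ring
  refine div_le_of_le_mul₀ ?_ hR ?_
  · refine Finset.sum_nonneg fun ω _ => Finset.sum_nonneg fun l _ => ?_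
    rw [hw]
    positivity
  rw [Finset.mul_sum]
  refine Finset.sum_le_sum fun ω _ => ?_
  have hDω : (D \ verts ω).Finite := hD.subset Set.sdiff_subset
  have h1 := h (D \ verts ω) hDω a b x hx0 t ht0
  have hT : (Traj (D \ verts ω) a b).Finite := traj_finite hDω a b
  have hZ : Pool.Agent.R131.LT.Zx x (D \ verts ω) a b =
      ∑ l ∈ hT.toFinset, x ^ (l.length - 1) :=
    finsum_mem_eq_finite_toFinset_sum _ hT
  have hS := finsum_mem_eq_finite_toFinset_sum (s := Traj (D \ verts ω) a b)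
    (fun l => x ^ (l.length - 1) * (if t * √(((l.length - 1 : ℕ) : ℝ) + 1) ≤
      |min 1 (x ^ (U'.length - U.length)) *
        (Pool.Agent.K1H48.SO.NP (D \ verts ω) U U' l : ℝ) - min 1 (x ^ (U'.length - U.length))⁻¹ *
        (Pool.Agent.K1H48.SO.NP (D \ verts ω) U' U l : ℝ)| then (1 : ℝ) else 0)) hT
  have h2 := h1
  rw [hZ] at h2
  have h3 := hS.symm.le.trans h2
  have e1 : ∑ l ∈ hT.toFinset, weight n x (l, ω) *
      (if t * √((steps (l, ω).1 : ℝ) + 1) ≤ |min 1 (x ^ (U'.length - U.length)) *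
        (N D U U' (l, ω) : ℝ) - min 1 (x ^ (U'.length - U.length))⁻¹ *
        (N D U' U (l, ω) : ℝ)| then (1 : ℝ) else 0) =
      (x ^ ω.card * n ^ loops ω) * ∑ l ∈ hT.toFinset, x ^ (l.length - 1) *
        (if t * √(((l.length - 1 : ℕ) : ℝ) + 1) ≤
      |min 1 (x ^ (U'.length - U.length)) *
        (Pool.Agent.K1H48.SO.NP (D \ verts ω) U U' l : ℝ) - min 1 (x ^ (U'.length - U.length))⁻¹ *
        (Pool.Agent.K1H48.SO.NP (D \ verts ω) U' U l : ℝ)| then (1 : ℝ) else 0) := by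
    rw [Finset.mul_sum]
    refine Finset.sum_congr rfl fun l hl' => ?_
    rw [Set.Finite.mem_toFinset, traj_iff] at hl'
    have hc : ∀ v ∈ (l, ω).1, v ∉ verts (l, ω).2 := hl'.2
    rw [hw, N_eq hc, N_eq hc, mul_assoc]
    rfl
  have e2 : ∑ l ∈ hT.toFinset, weight n x (l, ω) =
      (x ^ ω.card * n ^ loops ω) * ∑ l ∈ hT.toFinset, x ^ (l.length - 1) := by
    rw [Finset.mul_sum]
    exact Finset.sum_congr rfl fun l _ => hw l ω
  refine e1.le.trans (le_trans ?_ (mul_le_mul_of_nonneg_left e2.symm.le hR))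
  calc (x ^ ω.card * n ^ loops ω) * ∑ l ∈ hT.toFinset, x ^ (l.length - 1) *
        (if t * √(((l.length - 1 : ℕ) : ℝ) + 1) ≤
      |min 1 (x ^ (U'.length - U.length)) *
        (Pool.Agent.K1H48.SO.NP (D \ verts ω) U U' l : ℝ) - min 1 (x ^ (U'.length - U.length))⁻¹ *
        (Pool.Agent.K1H48.SO.NP (D \ verts ω) U' U l : ℝ)| then (1 : ℝ) else 0)
      ≤ (x ^ ω.card * n ^ loops ω) * (C * Real.exp (-(t ^ 2 / C)) *
          ∑ l ∈ hT.toFinset, x ^ (l.length - 1)) :=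
        mul_le_mul_of_nonneg_left h3 (by positivity)
    _ = _ := by ring

end Pool.Agent.Results.MP_4960b8_pr.LocalMoves
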